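import Mathlib
import Pool.Agent.MP_8a3eee_an.Final

set_option autoImplicit false

namespace Pool.Agent.Results.MP_8a3eee_an.EndpointQ1

open MeasureTheory Pool.Agent.MP_8a3eee_an

/-- Q1: at `λ = 2 / s` both cusp domains are images of the unit disk. -/
theorem result (s : ℝ) (hs : 0 < s) :
    (∃ (f : ℂ ≃ₜ ℂ) (D : ℂ → ℂ →L[ℝ] ℂ), FiniteDistortion f D ∧
      LocallyIntegrable (fun z => Real.exp (2 / s * distortion D z)) volume ∧
      f '' Metric.ball 0 1 = outCusp s) ∧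
    (∃ (f : ℂ ≃ₜ ℂ) (D : ℂ → ℂ →L[ℝ] ℂ), FiniteDistortion f D ∧
      LocallyIntegrable (fun z => Real.exp (2 / s * distortion D z)) volume ∧
      f '' Metric.ball 0 1 = inCusp s) :=
  ⟨exists_Q1_out hs, exists_Q1_in hs⟩

end Pool.Agent.Results.MP_8a3eee_an.EndpointQ1
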