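import Mathlib
import Pool.Agent.MP_8a3eee_an.Final

set_option autoImplicit false

namespace Pool.Agent.Results.MP_8a3eee_an.EndpointQ2

open MeasureTheory Pool.Agent.MP_8a3eee_an

/-- Q2: at `λ = 1 / s` the outward cusp domain is the image of the unit disk under a map that is
quasiconformal in the disk. -/
theorem result (s : ℝ) (hs : 0 < s) :
    ∃ (f : ℂ ≃ₜ ℂ) (D : ℂ → ℂ →L[ℝ] ℂ), FiniteDistortion f D ∧
      LocallyIntegrable (fun z => Real.exp (1 / s * distortion D z)) volume ∧
      MemLp (distortion D) ⊤ (volume.restrict (Metric.ball 0 1)) ∧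
      f '' Metric.ball 0 1 = outCusp s :=
  exists_Q2 hs

end Pool.Agent.Results.MP_8a3eee_an.EndpointQ2
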